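import Pool.Agent.Helper17.CT.Defs

/-! Module CT-17: a planar cubic map has a face of length at most five. -/

set_option autoImplicit false

namespace Pool.Agent.Helper17.CT

namespace Ct17

/-- the value of a boolean in `ZMod 2` -/
def z (b : Bool) : ZMod 2 := if b then 1 else 0

theorem z_inj {b b' : Bool} (h : z b = z b') : b = b' := by
  revert h; cases b <;> cases b' <;> decide

theorem z_xor (b b' : Bool) : z (b ^^ b') = z b + z b' := by
  cases b <;> cases b' <;> decide

theorem z_surj (x : ZMod 2) : ∃ b, z b = x := by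
  fin_cases x
  · exact ⟨false, rfl⟩
  · exact ⟨true, rfl⟩

variable {D : Type} (M : CMap D)

theorem f_inj : Function.Injective M.f := by
  intro x y h
  unfold CMap.f at h
  have h1 : M.a x = M.a y := by rw [← M.s3 (M.a x), h, M.s3]
  rw [← M.a2 x, h1, M.a2]

/-- summation over a transversal of the edges -/
theorem sum_a [Fintype D] {R : Type} [AddCommMonoid R] (T : D → Prop) [DecidablePred T]
    (hT : ∀ d, (T d ∧ ¬ T (M.a d)) ∨ (¬ T d ∧ T (M.a d))) (Z : D → R) :
    ∑ d, Z d = ∑ d ∈ Finset.univ.filter T, (Z d + Z (M.a d)) := by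
  let aE : D ≃ D := ⟨M.a, M.a, M.a2, M.a2⟩
  have h1 : ∑ d, (if T d then Z (M.a d) else 0) = ∑ d, (if T (M.a d) then Z d else 0) := by
    rw [← Equiv.sum_comp aE (fun d => if T d then Z (M.a d) else 0)]
    refine Finset.sum_congr rfl fun d _ => ?_
    show (if T (M.a d) then Z (M.a (M.a d)) else 0) = _
    rw [M.a2]
  rw [Finset.sum_filter]
  have h2 : ∀ d, (if T d then Z d + Z (M.a d) else 0) =
      (if T d then Z d else 0) + (if T d then Z (M.a d) else 0) := by
    intro d; split_ifs <;> simp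
  rw [Finset.sum_congr rfl (fun d _ => h2 d), Finset.sum_add_distrib, h1,
    ← Finset.sum_add_distrib]
  refine Finset.sum_congr rfl fun d _ => ?_
  rcases hT d with ⟨h3, h4⟩ | ⟨h3, h4⟩ <;> simp [h3, h4]

/-- summation over a transversal of the vertices -/
theorem sum_s [Fintype D] {R : Type} [AddCommMonoid R] (T : D → Prop) [DecidablePred T]
    (hT : ∀ d, (T d ∧ ¬ T (M.s d) ∧ ¬ T (M.s (M.s d))) ∨
      (¬ T d ∧ T (M.s d) ∧ ¬ T (M.s (M.s d))) ∨ (¬ T d ∧ ¬ T (M.s d) ∧ T (M.s (M.s d))))
    (Z : D → R) :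
    ∑ d, Z d = ∑ d ∈ Finset.univ.filter T, (Z d + Z (M.s d) + Z (M.s (M.s d))) := by
  let sE : D ≃ D := ⟨M.s, fun d => M.s (M.s d), fun d => M.s3 d, fun d => M.s3 d⟩
  have h1 : ∑ d, (if T d then Z (M.s d) else 0) = ∑ d, (if T (M.s (M.s d)) then Z d else 0) := by
    rw [← Equiv.sum_comp (sE.trans sE) (fun d => if T d then Z (M.s d) else 0)]
    refine Finset.sum_congr rfl fun d _ => ?_
    show (if T (M.s (M.s d)) then Z (M.s (M.s (M.s d))) else 0) = _
    rw [M.s3]
  have h1' : ∑ d, (if T d then Z (M.s (M.s d)) else 0) = ∑ d, (if T (M.s d) then Z d else 0) := by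
    rw [← Equiv.sum_comp sE (fun d => if T d then Z (M.s (M.s d)) else 0)]
    refine Finset.sum_congr rfl fun d _ => ?_
    show (if T (M.s d) then Z (M.s (M.s (M.s d))) else 0) = _
    rw [M.s3]
  rw [Finset.sum_filter]
  have h2 : ∀ d, (if T d then Z d + Z (M.s d) + Z (M.s (M.s d)) else 0) =
      (if T d then Z d else 0) + (if T d then Z (M.s d) else 0) +
      (if T d then Z (M.s (M.s d)) else 0) := by
    intro d; split_ifs <;> simp
  rw [Finset.sum_congr rfl (fun d _ => h2 d), Finset.sum_add_distrib, Finset.sum_add_distrib,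
    h1, h1', ← Finset.sum_add_distrib, ← Finset.sum_add_distrib]
  refine Finset.sum_congr rfl fun d _ => ?_
  rcases hT d with ⟨h3, h4, h5⟩ | ⟨h3, h4, h5⟩ | ⟨h3, h4, h5⟩ <;> simp [h3, h4, h5]

/-- the cycle space -/
def Ev : Submodule (ZMod 2) (D → ZMod 2) where
  carrier := {Z | (∀ d, Z (M.a d) = Z d) ∧ ∀ d, Z d + Z (M.s d) + Z (M.s (M.s d)) = 0}
  add_mem' := fun {x y} hx hy => ⟨fun d => by simp only [Pi.add_apply, hx.1 d, hy.1 d],
    fun d => by
      have h1 := hx.2 d
      have h2 := hy.2 d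
      simp only [Pi.add_apply]
      linear_combination h1 + h2⟩
  zero_mem' := ⟨fun d => rfl, fun d => by simp⟩
  smul_mem' := fun r x hx => ⟨fun d => by simp only [Pi.smul_apply, hx.1 d],
    fun d => by
      have h1 := hx.2 d
      simp only [Pi.smul_apply, smul_eq_mul]
      linear_combination r * h1⟩

/-- the functions of faces -/
def Fa : Submodule (ZMod 2) (D → ZMod 2) where
  carrier := {φ | ∀ d, φ (M.f d) = φ d}
  add_mem' := fun {x y} hx hy d => by simp only [Pi.add_apply, hx d, hy d]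
  zero_mem' := fun d => rfl
  smul_mem' := fun r x hx d => by simp only [Pi.smul_apply, hx d]

/-- lower bound for the dimension of the cycle space -/
theorem ev_ge [Fintype D] [Nonempty D] :
    Fintype.card D + 6 ≤ 6 * Module.finrank (ZMod 2) (Ev M) := by
  classical
  let e : D ≃ Fin (Fintype.card D) := Fintype.equivFin D
  let Pa : D → Prop := fun d => e d < e (M.a d)
  let Ps : D → Prop := fun d => e d < e (M.s d) ∧ e d < e (M.s (M.s d))
  have hPa : ∀ d, (Pa d ∧ ¬ Pa (M.a d)) ∨ (¬ Pa d ∧ Pa (M.a d)) := by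
    intro d
    simp only [Pa, M.a2]
    rcases lt_trichotomy (e d) (e (M.a d)) with h1 | h1 | h1
    · exact Or.inl ⟨h1, not_lt.2 h1.le⟩
    · exact absurd (e.injective h1).symm (M.a1 d)
    · exact Or.inr ⟨not_lt.2 h1.le, h1⟩
  have hPs : ∀ d, (Ps d ∧ ¬ Ps (M.s d) ∧ ¬ Ps (M.s (M.s d))) ∨
      (¬ Ps d ∧ Ps (M.s d) ∧ ¬ Ps (M.s (M.s d))) ∨
      (¬ Ps d ∧ ¬ Ps (M.s d) ∧ Ps (M.s (M.s d))) := by
    intro d
    simp only [Ps, M.s3]
    have n1 : e d ≠ e (M.s d) := fun h => M.s1 d (e.injective h).symm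
    have n2 : e (M.s d) ≠ e (M.s (M.s d)) := fun h => M.s1 _ (e.injective h).symm
    have n3 : e d ≠ e (M.s (M.s d)) := fun h => by
      have h1 := congrArg M.s (e.injective h)
      rw [M.s3] at h1
      exact M.s1 d h1
    revert n1 n2 n3
    generalize e d = x
    generalize e (M.s d) = y
    generalize e (M.s (M.s d)) = w
    intro n1 n2 n3
    rw [Ne, Fin.ext_iff] at n1 n2 n3
    simp only [Fin.lt_def]
    omega
  let Ta := Finset.univ.filter Pa
  let Ts := Finset.univ.filter Ps
  have hca : Fintype.card D = 2 * Ta.card := by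
    have h0 := sum_a M Pa hPa (fun _ => (1 : ℕ))
    simp only [Finset.sum_const, smul_eq_mul, Finset.card_univ] at h0
    have h1 : (Finset.univ.filter Pa).card = Ta.card := rfl
    omega
  have hcs : Fintype.card D = 3 * Ts.card := by
    have h0 := sum_s M Ps hPs (fun _ => (1 : ℕ))
    simp only [Finset.sum_const, smul_eq_mul, Finset.card_univ] at h0
    have h1 : (Finset.univ.filter Ps).card = Ts.card := rfl
    omega
  let L : (D → ZMod 2) →ₗ[ZMod 2] (Ta → ZMod 2) × (Ts → ZMod 2) :=
    { toFun := fun Z => (fun d => Z d.1 + Z (M.a d.1),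
        fun d => Z d.1 + Z (M.s d.1) + Z (M.s (M.s d.1)))
      map_add' := fun x y => by
        ext d <;> simp only [Pi.add_apply, Prod.fst_add, Prod.snd_add] <;> ring
      map_smul' := fun r x => by
        ext d <;> simp only [Pi.smul_apply, Prod.smul_fst, Prod.smul_snd, smul_eq_mul,
          RingHom.id_apply] <;> ring }
  let ψ : (Ta → ZMod 2) × (Ts → ZMod 2) →ₗ[ZMod 2] ZMod 2 :=
    { toFun := fun w => ∑ d, w.1 d + ∑ d, w.2 d
      map_add' := fun x y => by
        simp only [Pi.add_apply, Prod.fst_add, Prod.snd_add, Finset.sum_add_distrib]; ring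
      map_smul' := fun r x => by
        simp only [Pi.smul_apply, Prod.smul_fst, Prod.smul_snd, smul_eq_mul,
          RingHom.id_apply, ← Finset.mul_sum]; ring }
  have hker : LinearMap.ker L ≤ Ev M := by
    intro Z hZ
    rw [LinearMap.mem_ker] at hZ
    have h1 : ∀ d ∈ Ta, Z d + Z (M.a d) = 0 := fun d hd =>
      congrFun (congrArg Prod.fst hZ) ⟨d, hd⟩
    have h2 : ∀ d ∈ Ts, Z d + Z (M.s d) + Z (M.s (M.s d)) = 0 := fun d hd =>
      congrFun (congrArg Prod.snd hZ) ⟨d, hd⟩
    constructor
    · intro d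
      rcases hPa d with ⟨h3, -⟩ | ⟨-, h3⟩
      · exact (CharTwo.add_eq_zero.1 (h1 d (by simpa [Ta] using h3))).symm
      · have := h1 (M.a d) (by simpa [Ta] using h3)
        rw [M.a2] at this
        exact CharTwo.add_eq_zero.1 this
    · intro d
      rcases hPs d with ⟨h3, -, -⟩ | ⟨-, h3, -⟩ | ⟨-, -, h3⟩
      · exact h2 d (by simpa [Ts] using h3)
      · have := h2 (M.s d) (by simpa [Ts] using h3)
        rw [M.s3] at this
        linear_combination this
      · have := h2 (M.s (M.s d)) (by simpa [Ts] using h3)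
        rw [M.s3] at this
        linear_combination this
  have hrange : LinearMap.range L ≤ LinearMap.ker ψ := by
    rintro _ ⟨Z, rfl⟩
    rw [LinearMap.mem_ker]
    have h1 : ∑ d : Ta, (L Z).1 d = ∑ d, Z d := by
      rw [sum_a M Pa hPa Z]
      exact Finset.sum_coe_sort Ta (fun d => Z d + Z (M.a d))
    have h2 : ∑ d : Ts, (L Z).2 d = ∑ d, Z d := by
      rw [sum_s M Ps hPs Z]
      exact Finset.sum_coe_sort Ts (fun d => Z d + Z (M.s d) + Z (M.s (M.s d)))
    show ∑ d : Ta, (L Z).1 d + ∑ d : Ts, (L Z).2 d = 0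
    rw [h1, h2]
    exact CharTwo.add_self_eq_zero _
  have hpos : 0 < Fintype.card D := Fintype.card_pos
  have hTa : 0 < Ta.card := by omega
  have hψ : LinearMap.range ψ = ⊤ := by
    obtain ⟨d, hd⟩ := Finset.card_pos.1 hTa
    rw [LinearMap.range_eq_top]
    intro r
    refine ⟨(Pi.single ⟨d, hd⟩ r, 0), ?_⟩
    show ∑ d', (Pi.single (⟨d, hd⟩ : Ta) r : Ta → ZMod 2) d' + ∑ d' : Ts, (0 : Ts → ZMod 2) d' = r
    simp
  have e1 := LinearMap.finrank_range_add_finrank_ker L
  have e2 := LinearMap.finrank_range_add_finrank_ker ψ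
  have e3 := Submodule.finrank_mono hrange
  have e4 := Submodule.finrank_mono hker
  rw [hψ, finrank_top, Module.finrank_self] at e2
  have e5 : Module.finrank (ZMod 2) ((Ta → ZMod 2) × (Ts → ZMod 2)) = Ta.card + Ts.card := by
    rw [Module.finrank_prod, Module.finrank_fintype_fun_eq_card,
      Module.finrank_fintype_fun_eq_card, Fintype.card_coe, Fintype.card_coe]
  rw [Module.finrank_fintype_fun_eq_card] at e1
  omega

theorem fa_le [Fintype D] (h6 : ∀ d, 6 ≤ Function.minimalPeriod M.f d) :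
    6 * Module.finrank (ZMod 2) (Fa M) ≤ Fintype.card D := by
  classical
  let e : D ≃ Fin (Fintype.card D) := Fintype.equivFin D
  -- periodicity
  obtain ⟨N, hN, hN1⟩ : ∃ N, 0 < N ∧ ∀ d, (M.f)^[N] d = d := by
    let fE : Equiv.Perm D := Equiv.ofBijective M.f (Finite.injective_iff_bijective.1 (f_inj M))
    refine ⟨orderOf fE, orderOf_pos fE, fun d => ?_⟩
    have h1 : ∀ n d, (fE ^ n) d = (M.f)^[n] d := by
      intro n
      induction n with
      | zero => intro d; rfl
      | succ n ih =>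
        intro d
        rw [pow_succ, Equiv.Perm.mul_apply, ih, Function.iterate_succ_apply]
        rfl
    rw [← h1, pow_orderOf_eq_one]
    rfl
  have hback : ∀ i j (d d' : D), (M.f)^[i] d = (M.f)^[j] d' → ∃ k, (M.f)^[k] d' = d := by
    intro i j d d' h
    have hper : ∀ m d, (M.f)^[N * m] d = d := by
      intro m
      induction m with
      | zero => intro d; rfl
      | succ m ih =>
        intro d
        rw [Nat.mul_succ, Function.iterate_add_apply, hN1, ih]
    refine ⟨(N * i - i) + j, ?_⟩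
    rw [Function.iterate_add_apply, ← h, ← Function.iterate_add_apply]
    have : N * i - i + i = N * i := Nat.sub_add_cancel (Nat.le_mul_of_pos_left i hN)
    rw [this, hper]
  let Pf : D → Prop := fun d => ∀ k, e d ≤ e ((M.f)^[k] d)
  let Tf := Finset.univ.filter Pf
  have hmin : ∀ d, ∃ k, (M.f)^[k] d ∈ Tf := by
    intro d
    have hne : (Set.range (fun k => e ((M.f)^[k] d))).Nonempty := ⟨_, 0, rfl⟩
    obtain ⟨x, ⟨k, hk⟩, hx⟩ := WellFounded.has_min (wellFounded_lt (α := Fin (Fintype.card D)))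
      _ hne
    refine ⟨k, ?_⟩
    simp only [Tf, Finset.mem_filter, Finset.mem_univ, true_and, Pf]
    intro k'
    have := hx (e ((M.f)^[k' + k] d)) ⟨k' + k, rfl⟩
    rw [Function.iterate_add_apply] at this
    simp only at hk
    rw [hk]
    exact not_lt.1 this
  -- cardinality of the transversal
  have hcard : 6 * Tf.card ≤ Fintype.card D := by
    have hinj : Function.Injective (fun p : Fin 6 × Tf => (M.f)^[p.1] p.2.1) := by
      rintro ⟨i, d, hd⟩ ⟨j, d', hd'⟩ h
      simp only at h
      have h1 : ∀ k, e d ≤ e ((M.f)^[k] d) := by simpa [Tf, Pf] using hd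
      have h2 : ∀ k, e d' ≤ e ((M.f)^[k] d') := by simpa [Tf, Pf] using hd'
      obtain ⟨k, hk⟩ := hback i j d d' h
      obtain ⟨k', hk'⟩ := hback j i d' d h.symm
      have h3 : e d' ≤ e d := by have := h2 k; rwa [hk] at this
      have h4 : e d ≤ e d' := by have := h1 k'; rwa [hk'] at this
      have h5 : d = d' := e.injective (le_antisymm h4 h3)
      subst h5
      have h7 := Function.iterate_injOn_Iio_minimalPeriod (f := M.f) (x := d)
        (lt_of_lt_of_le i.2 (h6 d)) (lt_of_lt_of_le j.2 (h6 d)) h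
      have h8 : i = j := Fin.ext h7
      subst h8
      rfl
    have := Fintype.card_le_of_injective _ hinj
    rwa [Fintype.card_prod, Fintype.card_fin, Fintype.card_coe] at this
  -- the restriction to the transversal is injective
  let ρ : Fa M →ₗ[ZMod 2] (Tf → ZMod 2) :=
    { toFun := fun φ d => φ.1 d.1
      map_add' := fun x y => rfl
      map_smul' := fun r x => rfl }
  have hφ : ∀ φ : Fa M, ∀ k d, φ.1 ((M.f)^[k] d) = φ.1 d := by
    intro φ k
    induction k with
    | zero => intro d; rfl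
    | succ k ih =>
      intro d
      rw [Function.iterate_succ_apply, ih]
      exact φ.2 d
  have hρ : Function.Injective ρ := by
    intro φ φ' h
    apply Subtype.ext
    funext d
    obtain ⟨k, hk⟩ := hmin d
    have h1 := congrFun h ⟨_, hk⟩
    have h2 : φ.1 ((M.f)^[k] d) = φ'.1 ((M.f)^[k] d) := h1
    rwa [hφ, hφ] at h2
  have h1 := LinearMap.finrank_le_finrank_of_injective hρ
  rw [Module.finrank_fintype_fun_eq_card, Fintype.card_coe] at h1
  omega

end Ct17

section maps
variable {D : Type} (M : CMap D)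

/-- CT-17 -/
theorem small_face [Finite D] [Nonempty D] (hp : M.Planar) :
    ∃ d, Function.minimalPeriod M.f d ≤ 5 := by
  classical
  have : Fintype D := Fintype.ofFinite D
  by_contra hcon
  push Not at hcon
  have h1 := Ct17.ev_ge M
  have h2 := Ct17.fa_le M (fun d => hcon d)
  let δ : Ct17.Fa M →ₗ[ZMod 2] (D → ZMod 2) :=
    { toFun := fun φ d => φ.1 d + φ.1 (M.a d)
      map_add' := fun x y => by
        funext d
        simp only [Submodule.coe_add, Pi.add_apply]; ring
      map_smul' := fun r x => by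
        funext d
        simp only [Submodule.coe_smul, Pi.smul_apply, smul_eq_mul, RingHom.id_apply]; ring }
  have h3 : Ct17.Ev M ≤ LinearMap.range δ := by
    intro Z hZ
    choose Z' hZ' using fun d : D => Ct17.z_surj (Z d)
    obtain ⟨φ, hφ1, hφ2⟩ := hp Z' ⟨fun d => Ct17.z_inj (by rw [hZ', hZ']; exact hZ.1 d),
      fun d => Ct17.z_inj (by
        rw [Ct17.z_xor, Ct17.z_xor, hZ', hZ', hZ']
        exact hZ.2 d)⟩
    refine ⟨⟨fun d => Ct17.z (φ d), fun d => by simp only [hφ1]⟩, ?_⟩
    funext d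
    show Ct17.z (φ d) + Ct17.z (φ (M.a d)) = Z d
    rw [← Ct17.z_xor, ← hφ2, hZ']
  have h4 : 0 < Module.finrank (ZMod 2) (LinearMap.ker δ) := by
    have hone : (⟨fun _ => 1, fun d => rfl⟩ : Ct17.Fa M) ∈ LinearMap.ker δ := by
      rw [LinearMap.mem_ker]
      funext d
      exact CharTwo.add_self_eq_zero 1
    have : Nontrivial (LinearMap.ker δ) := by
      refine ⟨⟨⟨_, hone⟩, 0, ?_⟩⟩
      intro h
      obtain ⟨d⟩ := ‹Nonempty D›
      have h5 := congrArg (fun x : LinearMap.ker δ => (x.1.1 : D → ZMod 2) d) h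
      have h6 : (1 : ZMod 2) = 0 := h5
      exact one_ne_zero h6
    exact Module.finrank_pos
  have h5 := LinearMap.finrank_range_add_finrank_ker δ
  have h6 := Submodule.finrank_mono h3
  omega

end maps

end Pool.Agent.Helper17.CT
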