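import Pool.Agent.Helper17.CT.Defs

/-! Module CT-11: the cut space is the orthogonal complement of the cycle space. -/

set_option autoImplicit false

namespace Pool.Agent.Helper17.CT

namespace Ct11

/-- the value of a boolean in `ZMod 2` -/
def z (b : Bool) : ZMod 2 := if b then 1 else 0

theorem z_true : z true = 1 := rfl
theorem z_false : z false = 0 := rfl

theorem z_inj {b b' : Bool} (h : z b = z b') : b = b' := by
  revert h; cases b <;> cases b' <;> decide

theorem z_xor (b b' : Bool) : z (b ^^ b') = z b + z b' := by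
  cases b <;> cases b' <;> decide

theorem z_surj (x : ZMod 2) : ∃ b, z b = x := by
  fin_cases x
  · exact ⟨false, rfl⟩
  · exact ⟨true, rfl⟩

/-- a transversal of the edges -/
theorem exists_half {D : Type} (M : CMap D) [Finite D] :
    ∃ T : D → Prop, ∀ d, ¬ (T d ↔ T (M.a d)) := by
  obtain ⟨n, ⟨e⟩⟩ := Finite.exists_equiv_fin D
  refine ⟨fun d => e d < e (M.a d), fun d h => ?_⟩
  simp only [M.a2] at h
  rcases lt_trichotomy (e d) (e (M.a d)) with h1 | h1 | h1
  · exact absurd (h.1 h1) (not_lt.2 h1.le)
  · exact M.a1 d (e.injective h1).symm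
  · exact absurd (h.2 h1) (not_lt.2 h1.le)

end Ct11

section tri
variable {D : Type} (M : CMap D)

/-- CT-11 -/
theorem cut_of_orth [Finite D] (C : D → Bool) (hC : ∀ d, C (M.a d) = C d)
    (h : ∀ Z, M.Even Z → 4 ∣ Nat.card {d : D // Z d = true ∧ C d = true}) :
    ∃ X : D → Bool, M.VSet X ∧ ∀ d, C d = (X d ^^ X (M.a d)) := by
  classical
  have : Fintype D := Fintype.ofFinite D
  obtain ⟨T, hT⟩ := Ct11.exists_half M
  -- the half of `C`
  let c : D → ZMod 2 := fun d => if T d then Ct11.z (C d) else 0
  have hcc : ∀ d, c d + c (M.a d) = Ct11.z (C d) := by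
    intro d
    simp only [c, hC]
    by_cases h1 : T d
    · have h2 : ¬ T (M.a d) := fun h2 => hT d ⟨fun _ => h2, fun _ => h1⟩
      rw [if_pos h1, if_neg h2, add_zero]
    · have h2 : T (M.a d) := by
        by_contra h2
        exact hT d ⟨fun h => absurd h h1, fun h => absurd h h2⟩
      rw [if_neg h1, if_pos h2, zero_add]
  let Is : Submodule (ZMod 2) (D → ZMod 2) :=
    { carrier := {X | ∀ d, X (M.s d) = X d}
      add_mem' := fun {x y} hx hy d => by simp only [Pi.add_apply, hx d, hy d]
      zero_mem' := fun d => rfl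
      smul_mem' := fun r x hx d => by simp only [Pi.smul_apply, hx d] }
  let Ia : Submodule (ZMod 2) (D → ZMod 2) :=
    { carrier := {X | ∀ d, X (M.a d) = X d}
      add_mem' := fun {x y} hx hy d => by simp only [Pi.add_apply, hx d, hy d]
      zero_mem' := fun d => rfl
      smul_mem' := fun r x hx d => by simp only [Pi.smul_apply, hx d] }
  have hmem : c ∈ Is ⊔ Ia := by
    by_contra hcon
    obtain ⟨φ, hφ2, hφ1⟩ := Submodule.exists_le_ker_of_notMem hcon
    have hφ3 : ∀ x : D → ZMod 2, φ x = ∑ d, x d * φ (Pi.single d 1) := by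
      intro x
      conv_lhs => rw [pi_eq_sum_univ' x]
      rw [map_sum]
      refine Finset.sum_congr rfl fun d _ => ?_
      rw [map_smul, smul_eq_mul]
    choose Z hZ using fun d : D => Ct11.z_surj (φ (Pi.single d 1))
    have hZa : ∀ d, Z (M.a d) = Z d := by
      intro d
      apply Ct11.z_inj
      rw [hZ, hZ]
      have h1 : (Pi.single d 1 + Pi.single (M.a d) 1 : D → ZMod 2) ∈ Is ⊔ Ia := by
        apply Submodule.mem_sup_right
        intro x
        have e1 : M.a x = d ↔ x = M.a d :=
          ⟨fun h => by rw [← h, M.a2], fun h => by rw [h, M.a2]⟩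
        have e2 : M.a x = M.a d ↔ x = d :=
          ⟨fun h => by rw [← M.a2 x, h, M.a2], fun h => by rw [h]⟩
        simp only [Pi.add_apply, Pi.single_apply, e1, e2]
        exact add_comm _ _
      have h2 := hφ1 h1
      rw [LinearMap.mem_ker, map_add] at h2
      exact (CharTwo.add_eq_zero.1 h2).symm
    have hZs : ∀ d, (Z d ^^ Z (M.s d) ^^ Z (M.s (M.s d))) = false := by
      intro d
      apply Ct11.z_inj
      rw [Ct11.z_xor, Ct11.z_xor, hZ, hZ, hZ, Ct11.z_false]
      have h1 : (Pi.single d 1 + Pi.single (M.s d) 1 + Pi.single (M.s (M.s d)) 1 :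
          D → ZMod 2) ∈ Is ⊔ Ia := by
        apply Submodule.mem_sup_left
        intro x
        have e1 : ∀ u v, M.s u = M.s v ↔ u = v := fun u v =>
          ⟨fun h => by rw [← M.s3 u, h, M.s3], fun h => by rw [h]⟩
        have e2 : M.s x = d ↔ x = M.s (M.s d) := by
          rw [← e1 x, M.s3]
        simp only [Pi.add_apply, Pi.single_apply, e1, e2]
        ring
      have h2 := hφ1 h1
      rw [LinearMap.mem_ker, map_add, map_add] at h2
      rw [← h2]
    have h4 := h Z ⟨hZa, hZs⟩
    apply hφ2
    rw [hφ3]
    -- the sum is the number of half edges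
    have h5 : ∑ d, c d * φ (Pi.single d 1) =
        ((Finset.univ.filter (fun d => T d ∧ Z d = true ∧ C d = true)).card : ZMod 2) := by
      rw [Finset.card_filter, Nat.cast_sum]
      refine Finset.sum_congr rfl fun d _ => ?_
      rw [← hZ d]
      simp only [c]
      by_cases h1 : T d <;> cases h2 : Z d <;> cases h3 : C d <;>
        simp [h1, Ct11.z_true, Ct11.z_false]
    have h6 : (Finset.univ.filter (fun d => ¬ T d ∧ Z d = true ∧ C d = true)).card =
        (Finset.univ.filter (fun d => T d ∧ Z d = true ∧ C d = true)).card := by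
      refine Finset.card_bij (fun d _ => M.a d) ?_ ?_ ?_
      · intro d hd
        simp only [Finset.mem_filter, Finset.mem_univ, true_and] at hd ⊢
        refine ⟨?_, by rw [hZa]; exact hd.2.1, by rw [hC]; exact hd.2.2⟩
        by_contra h2
        exact hT d ⟨fun h => absurd h hd.1, fun h => absurd h h2⟩
      · intro d _ d' _ he
        rw [← M.a2 d, he, M.a2]
      · intro d hd
        simp only [Finset.mem_filter, Finset.mem_univ, true_and] at hd
        refine ⟨M.a d, ?_, M.a2 d⟩
        simp only [Finset.mem_filter, Finset.mem_univ, true_and]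
        refine ⟨?_, by rw [hZa]; exact hd.2.1, by rw [hC]; exact hd.2.2⟩
        intro h2
        exact hT d ⟨fun _ => h2, fun _ => hd.1⟩
    have h7 : Nat.card {d : D // Z d = true ∧ C d = true} =
        (Finset.univ.filter (fun d => T d ∧ Z d = true ∧ C d = true)).card +
        (Finset.univ.filter (fun d => ¬ T d ∧ Z d = true ∧ C d = true)).card := by
      rw [Nat.card_eq_fintype_card, Fintype.card_subtype, ← Finset.card_union_of_disjoint]
      · congr 1
        ext d
        simp only [Finset.mem_filter, Finset.mem_univ, true_and, Finset.mem_union]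
        tauto
      · rw [Finset.disjoint_filter]
        intro d _ h1 h2
        exact h2.1 h1.1
    rw [h5]
    rw [h7, h6] at h4
    have h8 : 2 ∣ (Finset.univ.filter (fun d => T d ∧ Z d = true ∧ C d = true)).card := by
      omega
    exact (ZMod.natCast_eq_zero_iff _ 2).2 h8
  obtain ⟨X, hX, Y, hY, hXY⟩ := Submodule.mem_sup.1 hmem
  choose X' hX' using fun d : D => Ct11.z_surj (X d)
  refine ⟨X', ?_, ?_⟩
  · intro d
    apply Ct11.z_inj
    rw [hX', hX']
    exact hX d
  · intro d
    apply Ct11.z_inj
    rw [Ct11.z_xor, hX', hX', ← hcc d]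
    have e1 : c d = X d + Y d := by rw [← hXY]; rfl
    have e2 : c (M.a d) = X (M.a d) + Y (M.a d) := by rw [← hXY]; rfl
    have e3 : Y (M.a d) = Y d := hY d
    rw [e1, e2, e3]
    have e4 : Y d + Y d = 0 := CharTwo.add_self_eq_zero _
    linear_combination e4

end tri

end Pool.Agent.Helper17.CT
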