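import Mathlib
import Pool.Agent.Helper6.LehmerCount.Growth

/-!
Counting Lehmer numbers with many prime factors.
-/

namespace Pool.Agent.Helper78.CT

open Finset Pool.Agent.Helper6.Lehmer Pool.Agent.Helper6.LehmerCount

/-- the divisor function dominates `2 ^ ω` -/
theorem two_pow_card_le_divisors {n : ℕ} (hn : n ≠ 0) :
    2 ^ n.primeFactors.card ≤ n.divisors.card := by
  rw [Nat.card_divisors hn, ← Finset.prod_const]
  apply Finset.prod_le_prod'
  intro p hp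
  have h1 : 0 < n.factorization p :=
    (Nat.prime_of_mem_primeFactors hp).factorization_pos_of_dvd hn (Nat.dvd_of_mem_primeFactors hp)
  omega

/-- `∑_{e ≤ Y} τ(e) ≤ Y (1 + log Y)` -/
theorem sum_card_divisors_le (Y : ℕ) :
    ∑ e ∈ Icc 1 Y, (e.divisors.card : ℝ) ≤ Y * (1 + Real.log Y) := by
  classical
  have h1 : ∀ e ∈ Icc 1 Y, (e.divisors.card : ℝ) = ∑ d ∈ Icc 1 Y, if d ∣ e then (1 : ℝ) else 0 := by
    intro e he
    rw [mem_Icc] at he
    rw [← Finset.sum_filter, Finset.sum_const, nsmul_eq_mul, mul_one]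
    congr 2
    ext d
    rw [Nat.mem_divisors, mem_filter, mem_Icc]
    constructor
    · rintro ⟨h, h'⟩
      exact ⟨⟨Nat.pos_of_dvd_of_pos h (by omega), (Nat.le_of_dvd (by omega) h).trans he.2⟩, h⟩
    · rintro ⟨_, h⟩
      exact ⟨h, by omega⟩
  rw [Finset.sum_congr rfl h1, Finset.sum_comm]
  have h2 : ∀ d ∈ Icc 1 Y, ∑ e ∈ Icc 1 Y, (if d ∣ e then (1 : ℝ) else 0) ≤ Y * ((d : ℝ)⁻¹) := by
    intro d _
    rw [← Finset.sum_filter, Finset.sum_const, nsmul_eq_mul, mul_one]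
    have h5 : #{e ∈ Icc 1 Y | d ∣ e} = Y / d := by
      have := Nat.Ioc_filter_dvd_card_eq_div Y d
      have h6 : Ioc 0 Y = Icc 1 Y := by
        ext x; simp [Nat.lt_iff_add_one_le]
      rwa [h6] at this
    rw [h5, ← div_eq_mul_inv]
    exact Nat.cast_div_le
  refine (Finset.sum_le_sum h2).trans ?_
  rw [← Finset.mul_sum]
  apply mul_le_mul_of_nonneg_left _ (by positivity)
  have h3 := harmonic_le_one_add_log Y
  have h4 : ((harmonic Y : ℚ) : ℝ) = ∑ d ∈ Icc 1 Y, ((d : ℝ)⁻¹) := by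
    rw [harmonic_eq_sum_Icc]
    push_cast
    rfl
  rw [← h4]
  exact h3

/-- few integers have many prime factors -/
theorem card_many (Y W : ℕ) :
    (#{e ∈ Icc 1 Y | W + 1 ≤ 2 * e.primeFactors.card} : ℝ) ≤
      Y * (1 + Real.log Y) * Real.exp (-(W : ℝ) / 4) := by
  classical
  have h1 : ∀ e ∈ {e ∈ Icc 1 Y | W + 1 ≤ 2 * e.primeFactors.card},
      Real.exp ((W : ℝ) / 4) ≤ (e.divisors.card : ℝ) := by
    intro e he
    rw [mem_filter, mem_Icc] at he
    have h2 := two_pow_card_le_divisors (n := e) (by omega)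
    have h3 : ((2 : ℝ)) ^ e.primeFactors.card ≤ (e.divisors.card : ℝ) := by exact_mod_cast h2
    refine le_trans ?_ h3
    rw [← Real.rpow_natCast, Real.rpow_def_of_pos (by norm_num)]
    apply Real.exp_le_exp.mpr
    have h4 := Real.log_two_gt_d9
    have h5 : (W : ℝ) + 1 ≤ 2 * e.primeFactors.card := by exact_mod_cast he.2
    have h6 : (0 : ℝ) ≤ e.primeFactors.card := by positivity
    nlinarith
  have h2 : (#{e ∈ Icc 1 Y | W + 1 ≤ 2 * e.primeFactors.card} : ℝ) * Real.exp ((W : ℝ) / 4) ≤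
      Y * (1 + Real.log Y) := by
    calc (#{e ∈ Icc 1 Y | W + 1 ≤ 2 * e.primeFactors.card} : ℝ) * Real.exp ((W : ℝ) / 4)
        = ∑ e ∈ {e ∈ Icc 1 Y | W + 1 ≤ 2 * e.primeFactors.card}, Real.exp ((W : ℝ) / 4) := by
          rw [Finset.sum_const, nsmul_eq_mul]
      _ ≤ ∑ e ∈ {e ∈ Icc 1 Y | W + 1 ≤ 2 * e.primeFactors.card}, (e.divisors.card : ℝ) :=
          Finset.sum_le_sum h1
      _ ≤ ∑ e ∈ Icc 1 Y, (e.divisors.card : ℝ) :=
          Finset.sum_le_sum_of_subset_of_nonneg (filter_subset _ _) (fun _ _ _ => by positivity)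
      _ ≤ _ := sum_card_divisors_le Y
  have h3 : Real.exp (-(W : ℝ) / 4) * Real.exp ((W : ℝ) / 4) = 1 := by
    rw [← Real.exp_add]
    have : -(W : ℝ) / 4 + (W : ℝ) / 4 = 0 := by ring
    rw [this, Real.exp_zero]
  have h4 : 0 < Real.exp (-(W : ℝ) / 4) := Real.exp_pos _
  calc (#{e ∈ Icc 1 Y | W + 1 ≤ 2 * e.primeFactors.card} : ℝ)
      = (#{e ∈ Icc 1 Y | W + 1 ≤ 2 * e.primeFactors.card} : ℝ) *
        (Real.exp (-(W : ℝ) / 4) * Real.exp ((W : ℝ) / 4)) := by rw [h3, mul_one]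
    _ = (#{e ∈ Icc 1 Y | W + 1 ≤ 2 * e.primeFactors.card} : ℝ) * Real.exp ((W : ℝ) / 4) *
        Real.exp (-(W : ℝ) / 4) := by ring
    _ ≤ _ := mul_le_mul_of_nonneg_right h2 h4.le

/-- the number of Lehmer numbers `n ≤ X` divisible by `D`, when `X ≤ c D ^ 2` -/
theorem card_dvd_le {S : Finset ℕ} {X D K c : ℕ} (hD0 : 0 < D)
    (hS : ∀ n ∈ S, IsLehmer n ∧ n ≤ X ∧ n.primeFactors.card ≤ K ∧ D ∣ n ∧ D < n)
    (hX : X ≤ c * D ^ 2) : #S ≤ (K + 1) * c + 1 := by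
  classical
  rcases S.eq_empty_or_nonempty with rfl | ⟨n₀, hn₀⟩
  · simp
  obtain ⟨h1, h2, h3, h4, h5⟩ := hS n₀ hn₀
  obtain ⟨k, hk⟩ := exists_idx h1
  have hkK : k ≤ K + 1 := hk.index_le.trans (by omega)
  have hlt := hk.lt_mul_totient h4 h5
  have h6 : #S ≤ X / (D * D.totient) + 1 := by
    apply card_le_of_modEq (fun n hn => (hS n hn).2.1)
    intro n hn n' hn'
    obtain ⟨a1, _, _, a4, _⟩ := hS n hn
    obtain ⟨b1, _, _, b4, _⟩ := hS n' hn'
    exact modEq_of_dvd a1 b1 a4 b4 (Nat.totient_dvd_of_dvd a4) (Nat.totient_dvd_of_dvd b4)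
  refine h6.trans (Nat.add_le_add_right ?_ 1)
  have hφ : 0 < D.totient := Nat.totient_pos.mpr hD0
  apply Nat.div_le_of_le_mul
  calc X ≤ c * D ^ 2 := hX
    _ = c * D * D := by ring
    _ ≤ c * D * ((K + 1) * D.totient) := by
        apply Nat.mul_le_mul_left
        exact hlt.le.trans (Nat.mul_le_mul_right _ hkK)
    _ = D * D.totient * ((K + 1) * c) := by ring

theorem sqrt_facts {l s : ℕ} (hl : 16 ≤ l) (hs : s = Nat.sqrt (2 ^ l) + 1) :
    2 ^ l < s ^ 2 ∧ s ^ 2 ≤ 2 * 2 ^ l ∧ 2 * l * s < 2 ^ (l - 1) ∧ (s : ℝ) ≤ 2 * (2 : ℝ) ^ ((l : ℝ) / 2) ∧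
      8 ≤ s := by
  have h0 : 2 ^ 16 ≤ 2 ^ l := Nat.pow_le_pow_right (by norm_num) hl
  have h1 : 2 ^ l < s ^ 2 := by rw [hs]; exact Nat.lt_succ_sqrt' _
  have h1' : Nat.sqrt (2 ^ l) * Nat.sqrt (2 ^ l) ≤ 2 ^ l := Nat.sqrt_le _
  have h8 : 7 ≤ Nat.sqrt (2 ^ l) := by
    rw [Nat.le_sqrt]
    omega
  have h2 : s ^ 2 ≤ 2 * 2 ^ l := by
    rw [hs]
    nlinarith
  have h3 : 2 * l * s < 2 ^ (l - 1) := by
    have hgrow : ∀ m : ℕ, 16 ≤ m → 32 * m ^ 2 < 2 ^ m := by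
      intro m hm
      induction m, hm using Nat.le_induction with
      | base => norm_num
      | succ m hm ih =>
        have h5 : 2 ^ (m + 1) = 2 * 2 ^ m := by rw [pow_succ]; ring
        rw [h5]
        nlinarith
    have h4 := hgrow l hl
    have h5 : (2 * l * s) ^ 2 < (2 ^ (l - 1)) ^ 2 := by
      have h6 : 4 * (2 ^ (l - 1)) ^ 2 = 2 ^ l * 2 ^ l := by
        obtain ⟨m, rfl⟩ : ∃ m, l = m + 1 := ⟨l - 1, by omega⟩
        simp only [Nat.add_sub_cancel, pow_succ]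
        ring
      have h7 : (2 * l * s) ^ 2 = 4 * l ^ 2 * s ^ 2 := by ring
      rw [h7]
      nlinarith
    exact lt_of_pow_lt_pow_left₀ 2 (by positivity) h5
  refine ⟨h1, h2, h3, ?_, by omega⟩
  have h9 : ((2 : ℝ) ^ ((l : ℝ) / 2)) ^ 2 = 2 ^ l := by
    rw [← Real.rpow_natCast, ← Real.rpow_mul (by norm_num)]
    have : (l : ℝ) / 2 * ((2 : ℕ) : ℝ) = l := by push_cast; ring
    rw [this, Real.rpow_natCast]
  have h10 : (s : ℝ) ^ 2 ≤ 2 * 2 ^ l := by exact_mod_cast h2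
  apply le_of_sq_le_sq _ (by positivity)
  rw [mul_pow, h9]
  have : (0 : ℝ) < 2 ^ l := by positivity
  linarith

/-- The number of Lehmer numbers in `(2 ^ (l - 1), 2 ^ l]` with more than `W` prime factors. -/
theorem manyprimes {l W : ℕ} (hl : 16 ≤ l) (S : Finset ℕ)
    (hS : ∀ n ∈ S, IsLehmer n ∧ n ≤ 2 ^ l ∧ 2 ^ (l - 1) < n ∧ W < n.primeFactors.card) :
    (#S : ℝ) ≤ (2 : ℝ) ^ ((l : ℝ) / 2) * Real.exp (-(W : ℝ) / 4) * ((l : ℝ) + 1) ^ 7 := by
  classical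
  obtain ⟨s, hs⟩ : ∃ s, s = Nat.sqrt (2 ^ l) + 1 := ⟨_, rfl⟩
  obtain ⟨f1, f2, f3, f4, f5⟩ := sqrt_facts hl hs
  have hdata : ∀ n ∈ S, ∃ u v, n = u * v ∧ u ≤ 2 * l * s ∧ s < u ∧ v < s ∧ 2 ^ l < 2 * (2 * l * s) * v ∧
      (W + 1 ≤ 2 * u.primeFactors.card ∨ W + 1 ≤ 2 * v.primeFactors.card) ∧
      n.primeFactors.card ≤ l ∧ 0 < v := by
    intro n hn
    obtain ⟨h1, h2, h3, h4⟩ := hS n hn
    obtain ⟨k, hk⟩ := exists_idx h1
    have hcl : n.primeFactors.card < l + 1 :=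
      card_primeFactors_lt h1.squarefree (lt_of_le_of_lt h2 (Nat.pow_lt_pow_right (by norm_num) (by omega)))
    obtain ⟨u, hu1, hu2, hu3⟩ := hk.dense' (L := 2 * l) (by omega) (Y := 2 * l * s)
      (by nlinarith) (by
        apply Nat.mul_lt_mul_of_pos_left _ (by omega)
        nlinarith)
    have hsu : s < u := Nat.lt_of_mul_lt_mul_left hu3
    obtain ⟨v, hv⟩ := hu1
    have hv0 : 0 < v := by
      rcases Nat.eq_zero_or_pos v with h0 | h0
      · rw [h0, mul_zero] at hv; omega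
      · exact h0
    refine ⟨u, v, hv, hu2, hsu, ?_, ?_, ?_, by omega, hv0⟩
    · by_contra hcon
      rw [not_lt] at hcon
      have : s * s ≤ u * v := Nat.mul_le_mul hsu.le hcon
      rw [← hv] at this
      nlinarith
    · have h5 : 2 ^ l = 2 * 2 ^ (l - 1) := by
        obtain ⟨m, rfl⟩ : ∃ m, l = m + 1 := ⟨l - 1, by omega⟩
        simp only [Nat.add_sub_cancel, pow_succ]
        ring
      rw [h5, mul_assoc]
      apply Nat.mul_lt_mul_of_pos_left _ (by norm_num)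
      calc 2 ^ (l - 1) < n := h3
        _ = u * v := hv
        _ ≤ _ := Nat.mul_le_mul_right _ hu2
    · have hsq := h1.squarefree
      rw [hv] at hsq
      have hcop := Nat.coprime_of_squarefree_mul hsq
      have h6 : n.primeFactors.card = u.primeFactors.card + v.primeFactors.card := by
        rw [hv, hcop.primeFactors_mul, Finset.card_union_of_disjoint hcop.disjoint_primeFactors]
      omega
  choose! u v d1 d2 d3 d4 d5 d6 d7 d8 using hdata
  -- split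
  obtain ⟨S₁, hS₁⟩ : ∃ S₁, S₁ = {n ∈ S | W + 1 ≤ 2 * (u n).primeFactors.card} := ⟨_, rfl⟩
  obtain ⟨S₂, hS₂⟩ : ∃ S₂, S₂ = {n ∈ S | ¬ (W + 1 ≤ 2 * (u n).primeFactors.card)} := ⟨_, rfl⟩
  have hsplit : #S = #S₁ + #S₂ := by
    rw [hS₁, hS₂, Finset.card_filter_add_card_filter_not]
  have hund : ∀ n ∈ S, u n < n := by
    intro n hn
    have := d2 n hn
    obtain ⟨_, _, h3, _⟩ := hS n hn
    omega
  have hvnd : ∀ n ∈ S, v n < n := by
    intro n hn
    have := d4 n hn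
    obtain ⟨_, _, h3, _⟩ := hS n hn
    have : s ≤ 2 * l * s := Nat.le_mul_of_pos_left _ (by omega)
    omega
  have hgen : ∀ (T : Finset ℕ) (g : ℕ → ℕ) (Z c : ℕ), T ⊆ S →
      (∀ n ∈ T, g n ∣ n ∧ g n < n ∧ g n ≤ Z ∧ 0 < g n ∧ W + 1 ≤ 2 * (g n).primeFactors.card ∧
        2 ^ l ≤ c * g n ^ 2) →
      (#T : ℝ) ≤ (Z * (1 + Real.log Z) * Real.exp (-(W : ℝ) / 4)) * ((l + 1) * c + 1) := by
    intro T g Z c hT hg
    have h1 : #T ≤ #{e ∈ Icc 1 Z | W + 1 ≤ 2 * e.primeFactors.card} * ((l + 1) * c + 1) := by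
      have h2 := Finset.card_le_mul_card_image_of_maps_to (s := T)
        (t := {e ∈ Icc 1 Z | W + 1 ≤ 2 * e.primeFactors.card}) (f := g) (by
          intro n hn
          obtain ⟨e1, e2, e3, e4, e5, e6⟩ := hg n hn
          rw [mem_filter, mem_Icc]
          exact ⟨⟨e4, e3⟩, e5⟩) ((l + 1) * c + 1) (by
          intro b hb
          rcases (T.filter (fun n => g n = b)).eq_empty_or_nonempty with h0 | ⟨n₀, hn₀⟩
          · rw [h0]; simp
          rw [mem_filter] at hn₀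
          obtain ⟨e1, e2, e3, e4, e5, e6⟩ := hg n₀ hn₀.1
          rw [hn₀.2] at e1 e2 e3 e4 e5 e6
          apply card_dvd_le e4 _ e6
          intro n hn
          rw [mem_filter] at hn
          obtain ⟨a1, a2, a3, a4⟩ := hS n (hT hn.1)
          obtain ⟨g1, g2, _⟩ := hg n hn.1
          rw [hn.2] at g1 g2
          exact ⟨a1, a2, d7 n (hT hn.1), g1, g2⟩)
      rw [mul_comm] at h2
      exact h2
    have h3 : (#T : ℝ) ≤ (#{e ∈ Icc 1 Z | W + 1 ≤ 2 * e.primeFactors.card} : ℝ) *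
        ((l + 1) * c + 1) := by exact_mod_cast h1
    refine h3.trans ?_
    apply mul_le_mul_of_nonneg_right (card_many Z W) (by positivity)
  have b1 := hgen S₁ u (2 * l * s) 1 (by rw [hS₁]; exact filter_subset _ _) (by
    intro n hn
    rw [hS₁, mem_filter] at hn
    refine ⟨?_, hund n hn.1, d2 n hn.1, ?_, hn.2, ?_⟩
    · conv_rhs => rw [d1 n hn.1]
      exact Dvd.intro _ rfl
    · have := d3 n hn.1
      omega
    · have := d3 n hn.1
      rw [one_mul]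
      calc 2 ^ l ≤ s ^ 2 := f1.le
        _ ≤ u n ^ 2 := Nat.pow_le_pow_left this.le 2)
  have b2 := hgen S₂ v s (32 * l ^ 2) (by rw [hS₂]; exact filter_subset _ _) (by
    intro n hn
    rw [hS₂, mem_filter] at hn
    refine ⟨?_, hvnd n hn.1, (d4 n hn.1).le, d8 n hn.1, ?_, ?_⟩
    · conv_rhs => rw [d1 n hn.1]
      exact Dvd.intro_left _ rfl
    · have := d6 n hn.1
      tauto
    · have h1 := d5 n hn.1
      have h2 : 2 ^ l * 2 ^ l ≤ (2 * (2 * l * s) * v n) ^ 2 := by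
        rw [← sq]; exact Nat.pow_le_pow_left h1.le 2
      have h3 : (2 * (2 * l * s) * v n) ^ 2 = 16 * l ^ 2 * v n ^ 2 * s ^ 2 := by ring
      rw [h3] at h2
      have h4 : 16 * l ^ 2 * v n ^ 2 * s ^ 2 ≤ 16 * l ^ 2 * v n ^ 2 * (2 * 2 ^ l) :=
        Nat.mul_le_mul_left _ f2
      have h5 : 2 ^ l * 2 ^ l ≤ (32 * l ^ 2 * v n ^ 2) * 2 ^ l := by
        calc 2 ^ l * 2 ^ l ≤ _ := h2
          _ ≤ _ := h4
          _ = _ := by ring
      exact Nat.le_of_mul_le_mul_right h5 (by positivity))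
  -- numerics
  have hlR : (16 : ℝ) ≤ l := by exact_mod_cast hl
  have hs0 : (8 : ℝ) ≤ s := by exact_mod_cast f5
  have hlog1 : Real.log ((2 * l * s : ℕ) : ℝ) ≤ l := by
    have h1 : ((2 * l * s : ℕ) : ℝ) ≤ (2 : ℝ) ^ l := by
      have h2 : 2 * l * s ≤ 2 ^ l := f3.le.trans (Nat.pow_le_pow_right (by norm_num) (by omega))
      exact_mod_cast h2
    have h2 : (0 : ℝ) < ((2 * l * s : ℕ) : ℝ) := by
      push_cast
      have : (0 : ℝ) < l := by linarith
      positivity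
    have h3 := Real.log_le_log h2 h1
    rw [Real.log_pow] at h3
    have h4 := Real.log_two_lt_d9
    nlinarith
  have hlog2 : Real.log (s : ℝ) ≤ l := by
    refine le_trans (Real.log_le_log (by linarith) ?_) hlog1
    have : s ≤ 2 * l * s := Nat.le_mul_of_pos_left _ (by omega)
    exact_mod_cast this
  have hlog0 : 0 ≤ Real.log (s : ℝ) := Real.log_nonneg (by linarith)
  have hlog0' : 0 ≤ Real.log ((2 * l * s : ℕ) : ℝ) := by
    apply Real.log_nonneg
    have : 1 ≤ 2 * l * s := by nlinarith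
    exact_mod_cast this
  obtain ⟨E, hE⟩ : ∃ E, E = Real.exp (-(W : ℝ) / 4) := ⟨_, rfl⟩
  obtain ⟨Z, hZ⟩ : ∃ Z : ℝ, Z = (2 : ℝ) ^ ((l : ℝ) / 2) := ⟨_, rfl⟩
  rw [← hE, ← hZ]
  rw [← hE] at b1 b2
  rw [← hZ] at f4
  have hE0 : 0 < E := by rw [hE]; exact Real.exp_pos _
  have hZ0 : 0 < Z := by rw [hZ]; positivity
  obtain ⟨m, hm⟩ : ∃ m : ℝ, m = (l : ℝ) + 1 := ⟨_, rfl⟩
  have hm17 : (17 : ℝ) ≤ m := by rw [hm]; linarith
  have b1' : (#S₁ : ℝ) ≤ Z * E * (8 * m ^ 3) := by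
    refine b1.trans ?_
    have h1 : ((2 * l * s : ℕ) : ℝ) ≤ 4 * m * Z := by
      push_cast
      calc 2 * (l : ℝ) * s ≤ 2 * l * (2 * Z) := mul_le_mul_of_nonneg_left f4 (by positivity)
        _ = 4 * l * Z := by ring
        _ ≤ 4 * m * Z := by
            apply mul_le_mul_of_nonneg_right _ hZ0.le
            rw [hm]; linarith
    have h2 : (1 + Real.log ((2 * l * s : ℕ) : ℝ)) ≤ m := by rw [hm]; linarith
    calc (((2 * l * s : ℕ) : ℝ) * (1 + Real.log ((2 * l * s : ℕ) : ℝ)) * E) *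
          ((l + 1) * ((1 : ℕ) : ℝ) + 1)
        ≤ ((4 * m * Z) * m * E) * (2 * m) := by
          apply mul_le_mul
          · apply mul_le_mul_of_nonneg_right _ hE0.le
            exact mul_le_mul h1 h2 (by linarith) (by positivity)
          · push_cast
            rw [← hm]
            linarith
          · positivity
          · positivity
      _ = _ := by ring
  have b2' : (#S₂ : ℝ) ≤ Z * E * (66 * m ^ 4) := by
    refine b2.trans ?_
    have h2 : (1 + Real.log (s : ℝ)) ≤ m := by rw [hm]; linarith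
    calc ((s : ℝ) * (1 + Real.log (s : ℝ)) * E) * ((l + 1) * ((32 * l ^ 2 : ℕ) : ℝ) + 1)
        ≤ ((2 * Z) * m * E) * (33 * m ^ 3) := by
          apply mul_le_mul
          · apply mul_le_mul_of_nonneg_right _ hE0.le
            exact mul_le_mul f4 h2 (by linarith) (by positivity)
          · push_cast
            rw [← hm]
            have h3 : (l : ℝ) ^ 2 ≤ m ^ 2 := by
              apply pow_le_pow_left₀ (by positivity)
              rw [hm]; linarith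
            have h4 : (1 : ℝ) ≤ m ^ 3 := one_le_pow₀ (by linarith)
            have h5 : m * (32 * (l : ℝ) ^ 2) ≤ m * (32 * m ^ 2) := by
              apply mul_le_mul_of_nonneg_left _ (by linarith)
              linarith
            nlinarith
          · positivity
          · positivity
      _ = _ := by ring
  have h7 : 8 * m ^ 3 + 66 * m ^ 4 ≤ m ^ 7 := by
    have h8 : (17 : ℝ) ^ 2 ≤ m ^ 2 := pow_le_pow_left₀ (by norm_num) hm17 2
    have h9 : (0 : ℝ) < m ^ 3 := by positivity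
    have h10 : m ^ 7 = m ^ 3 * (m ^ 2 * m ^ 2) := by ring
    have h11 : m ^ 4 = m ^ 3 * m := by ring
    rw [h10, h11]
    have h12 : 8 + 66 * m ≤ m ^ 2 * m ^ 2 := by nlinarith
    nlinarith
  have h8 : (#S : ℝ) = #S₁ + #S₂ := by exact_mod_cast hsplit
  rw [h8, ← hm]
  calc (#S₁ : ℝ) + #S₂ ≤ Z * E * (8 * m ^ 3) + Z * E * (66 * m ^ 4) := add_le_add b1' b2'
    _ = Z * E * (8 * m ^ 3 + 66 * m ^ 4) := by ring
    _ ≤ Z * E * m ^ 7 := mul_le_mul_of_nonneg_left h7 (by positivity)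

end Pool.Agent.Helper78.CT
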